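import Mathlib
import Pool.Agent.Helper784WE.H2
import Pool.Agent.Helper784WE.F
import Pool.Agent.N506.EXM

/-!
# A finitely presented group that is not exact
-/

set_option autoImplicit false

namespace Pool.Agent.V8H43.GS

theorem not_exact_of {n : ℕ} {rels : Set (FreeGroup (Fin n))}
    (h : ∀ (H : Type) [NormedAddCommGroup H] [InnerProductSpace ℝ H] [CompleteSpace H]
          (f : PresentedGroup rels → H),
          ¬ ((∀ k : ℕ, ∃ C : ℝ, ∀ g h : PresentedGroup rels,
                (∃ w : FreeGroup (Fin n), w.toWord.length ≤ k ∧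
                    h = g * PresentedGroup.mk rels w) →
                ‖f g - f h‖ ≤ C) ∧
             (∀ R : ℝ, ∃ k : ℕ, ∀ g h : PresentedGroup rels,
                ‖f g - f h‖ ≤ R →
                ∃ w : FreeGroup (Fin n), w.toWord.length ≤ k ∧
                    h = g * PresentedGroup.mk rels w))) :
    ¬ Pool.Agent.N506.EX.IsExact (PresentedGroup rels) := by
  classical
  intro hex
  have hsurj : Function.Surjective (PresentedGroup.mk rels) := PresentedGroup.mk_surjective rels
  have : Countable (PresentedGroup rels) := hsurj.countable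
  obtain ⟨H, _, _, _, f, h1, h2⟩ := hex.coarselyEmbeds
  refine h H f ⟨?_, ?_⟩
  · intro k
    have hfin : {w : FreeGroup (Fin n) | w.toWord.length ≤ k}.Finite := by
      have h3 : {l : List (Fin n × Bool) | l.length ≤ k}.Finite := List.finite_length_le _ _
      exact h3.preimage FreeGroup.toWord_injective.injOn
    choose C hC using h1
    obtain ⟨B, hB⟩ := (hfin.image fun w => C (PresentedGroup.mk rels w)).bddAbove
    refine ⟨B, ?_⟩
    rintro g _ ⟨w, hw, rfl⟩
    rw [norm_sub_rev]
    exact (hC _ g).trans (hB ⟨w, hw, rfl⟩)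
  · intro R
    choose u hu using hsurj
    have h3 := h2 R
    refine ⟨h3.toFinset.sup fun s => (u s).toWord.length, fun g k hgk => ⟨u (g⁻¹ * k), ?_, ?_⟩⟩
    · refine Finset.le_sup (f := fun s => (u s).toWord.length) ?_
      rw [Set.Finite.mem_toFinset]
      refine ⟨g, ?_⟩
      rw [mul_inv_cancel_left, norm_sub_rev]
      exact hgk
    · rw [hu, mul_inv_cancel_left]

theorem exists_not_exact : ∃ (n : ℕ) (rels : Finset (FreeGroup (Fin n))),
    ¬ Pool.Agent.N506.EX.IsExact (PresentedGroup (rels : Set (FreeGroup (Fin n)))) := by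
  obtain ⟨E, _, hfp, hc, hce⟩ := Pool.Agent.Helper784WE.exists_group
    Pool.Agent.Helper784WE.F.specF
  obtain ⟨n, rels, h, -⟩ := Pool.Agent.Helper784WE.presented E hfp hc hce
  exact ⟨n, rels, not_exact_of h⟩

/-- finite groups are exact -/
theorem exact_of_finite (G : Type) [Group G] [Finite G] : Pool.Agent.N506.EX.IsExact G := by
  classical
  have := Fintype.ofFinite G
  intro F ε hε
  refine ⟨Finset.univ, fun _ => Finsupp.single 1 1, ?_, ?_, ?_, ?_⟩
  · intro g x
    rw [Finsupp.single_apply]
    positivity
  · intro g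
    simp
  · intro g x _
    exact Finset.mem_univ _
  · intro g s _
    simpa using hε.le

end Pool.Agent.V8H43.GS
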