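import Mathlib
import Pool.Agent.N506.EX0

/-!
# Measurewise amenability implies amenability at infinity: the separation argument
-/

set_option autoImplicit false

open Filter Topology MeasureTheory Set
open scoped ENNReal CompactlySupported

namespace Pool.Agent.V8H43.GS

section defs

variable {G : Type} [Group G] {Z : Type} [TopologicalSpace Z] [MulAction G Z]

/-- continuous families of finitely supported probability vectors -/
structure Wt (K : Finset G) (m : G → C(Z, ℝ)) : Prop where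
  nonneg : ∀ g z, 0 ≤ m g z
  supp : ∀ g, g ∉ K → m g = 0
  sum : ∀ z, ∑ g ∈ K, m g z = 1

/-- `f` bounds the defect of equivariance of `m` -/
def Dfb (F : Finset G) (m : G → C(Z, ℝ)) (f : Z → ℝ) : Prop :=
  ∀ (L : Finset G) (z : Z), ∑ s ∈ F, ∑ γ ∈ L, |m γ z - m (γ * s⁻¹) (s • z)| ≤ f z

/-- the bounds of defects -/
def Cset (Z : Type) [TopologicalSpace Z] [MulAction G Z] (F : Finset G) : Set C(Z, ℝ) :=
  {f | ∃ (K : Finset G) (m : G → C(Z, ℝ)), Wt K m ∧ Dfb F m f}

omit [Group G] [MulAction G Z] in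
theorem Wt.mono {K K' : Finset G} {m : G → C(Z, ℝ)} (h : Wt K m) (hK : K ⊆ K') :
    Wt K' m where
  nonneg := h.nonneg
  supp g hg := h.supp g fun h' => hg (hK h')
  sum z := by
    rw [← h.sum z]
    symm
    refine Finset.sum_subset hK fun g _ hg => ?_
    rw [h.supp g hg]
    rfl

theorem convex_Cset (F : Finset G) : Convex ℝ (Cset Z F) := by
  classical
  rintro f₁ ⟨K₁, m₁, h₁, d₁⟩ f₂ ⟨K₂, m₂, h₂, d₂⟩ a b ha hb hab
  refine ⟨K₁ ∪ K₂, fun g => a • m₁ g + b • m₂ g, ⟨?_, ?_, ?_⟩, ?_⟩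
  · intro g z
    have h3 := h₁.nonneg g z
    have h4 := h₂.nonneg g z
    simp only [ContinuousMap.add_apply, ContinuousMap.smul_apply, smul_eq_mul]
    positivity
  · intro g hg
    rw [Finset.mem_union, not_or] at hg
    rw [h₁.supp g hg.1, h₂.supp g hg.2]
    simp
  · intro z
    simp only [ContinuousMap.add_apply, ContinuousMap.smul_apply, smul_eq_mul]
    rw [Finset.sum_add_distrib, ← Finset.mul_sum, ← Finset.mul_sum,
      (h₁.mono Finset.subset_union_left).sum z, (h₂.mono Finset.subset_union_right).sum z]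
    linarith
  · intro L z
    simp only [ContinuousMap.add_apply, ContinuousMap.smul_apply, smul_eq_mul]
    have h3 := d₁ L z
    have h4 := d₂ L z
    calc ∑ s ∈ F, ∑ γ ∈ L, |a * m₁ γ z + b * m₂ γ z -
          (a * m₁ (γ * s⁻¹) (s • z) + b * m₂ (γ * s⁻¹) (s • z))|
        ≤ ∑ s ∈ F, ∑ γ ∈ L, (a * |m₁ γ z - m₁ (γ * s⁻¹) (s • z)| +
          b * |m₂ γ z - m₂ (γ * s⁻¹) (s • z)|) := by
          refine Finset.sum_le_sum fun s _ => Finset.sum_le_sum fun γ _ => ?_
          have e : a * m₁ γ z + b * m₂ γ z - (a * m₁ (γ * s⁻¹) (s • z) + b * m₂ (γ * s⁻¹) (s • z)) =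
            a * (m₁ γ z - m₁ (γ * s⁻¹) (s • z)) + b * (m₂ γ z - m₂ (γ * s⁻¹) (s • z)) := by ring
          rw [e]
          refine (abs_add_le _ _).trans ?_
          rw [abs_mul, abs_mul, abs_of_nonneg ha, abs_of_nonneg hb]
      _ = a * (∑ s ∈ F, ∑ γ ∈ L, |m₁ γ z - m₁ (γ * s⁻¹) (s • z)|) +
          b * (∑ s ∈ F, ∑ γ ∈ L, |m₂ γ z - m₂ (γ * s⁻¹) (s • z)|) := by
          simp only [Finset.sum_add_distrib, Finset.mul_sum]
      _ ≤ a * f₁ z + b * f₂ z :=
          add_le_add (mul_le_mul_of_nonneg_left h3 ha) (mul_le_mul_of_nonneg_left h4 hb)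

end defs

/-- The group is measurewise amenable on `Z`: for every finite measure the defects can be made
small in the mean. -/
def MeasAmen (G Z : Type) [Group G] [TopologicalSpace Z] [MeasurableSpace Z] [MulAction G Z] :
    Prop :=
  ∀ (F : Finset G) (ν : Measure Z), IsFiniteMeasure ν → ∀ ε : ℝ, 0 < ε →
    ∃ f ∈ Cset Z F, ∫ z, f z ∂ν < ε

variable {G : Type} [Group G] {Z : Type} [TopologicalSpace Z] [CompactSpace Z] [T2Space Z]
  [MeasurableSpace Z] [BorelSpace Z] [MulAction G Z]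

/-- Separation. -/
theorem exists_uniform (h : MeasAmen G Z) (F : Finset G) {ε : ℝ} (hε : 0 < ε) :
    ∃ f ∈ Cset Z F, ∀ z, f z ≤ ε := by
  classical
  by_contra hcon
  push Not at hcon
  let U : Set C(Z, ℝ) := {f | ∀ z, f z < ε}
  have hUo : IsOpen U := by
    have : U = {f : C(Z, ℝ) | MapsTo f univ (Iio ε)} := by
      ext f
      simp [U, MapsTo]
    rw [this]
    exact ContinuousMap.isOpen_setOfPred_mapsTo isCompact_univ isOpen_Iio
  have hUc : Convex ℝ U := by
    intro f₁ h₁ f₂ h₂ a b ha hb hab z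
    have h3 : f₁ z < ε := h₁ z
    have h4 : f₂ z < ε := h₂ z
    simp only [ContinuousMap.add_apply, ContinuousMap.smul_apply, smul_eq_mul]
    rcases ha.eq_or_lt with h5 | h5
    · rw [← h5] at hab ⊢
      rw [zero_add] at hab
      rw [hab]
      linarith
    · calc a * f₁ z + b * f₂ z < a * ε + b * ε := by
            have h6 := mul_lt_mul_of_pos_left h3 h5
            have h7 := mul_le_mul_of_nonneg_left h4.le hb
            linarith
        _ = ε := by rw [← add_mul, hab, one_mul]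
  have hdisj : Disjoint U (Cset Z F) := by
    rw [Set.disjoint_left]
    intro f h1 h2
    obtain ⟨z, hz⟩ := hcon f h2
    exact absurd (h1 z) (not_lt.2 hz.le)
  obtain ⟨Λ, u, hΛ1, hΛ2⟩ := geometric_hahn_banach_open hUc hUo (convex_Cset F) hdisj
  have hu : 0 < u := by
    have := hΛ1 0 (fun z => by simpa using hε)
    simpa using this
  have hpos : ∀ f : C(Z, ℝ), 0 ≤ f → 0 ≤ Λ f := by
    intro f hf
    by_contra hneg
    push Not at hneg
    -- large negative multiples
    have h1 : ∀ t : ℝ, 0 ≤ t → Λ ((-t) • f) < u := by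
      intro t ht
      refine hΛ1 _ fun z => ?_
      have h2 : 0 ≤ f z := hf z
      simp only [ContinuousMap.smul_apply, smul_eq_mul]
      nlinarith
    have h2 := h1 (u / (-Λ f)) (div_nonneg hu.le (by linarith))
    rw [map_smul, smul_eq_mul] at h2
    have h3 : -(u / -Λ f) * Λ f = u := by
      have h4 : Λ f ≠ 0 := hneg.ne
      field_simp
    linarith
  let Λ' : C_c(Z, ℝ) →ₚ[ℝ] ℝ := PositiveLinearMap.mk₀
    { toFun := fun f => Λ ⟨f, f.continuous⟩
      map_add' := fun f g => by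
        rw [← map_add]
        rfl
      map_smul' := fun c f => by
        rw [RingHom.id_apply, ← map_smul]
        rfl }
    (fun f hf => hpos _ hf)
  have : IsFiniteMeasure (RealRMK.rieszMeasure Λ') := by
    have : (RealRMK.rieszMeasure Λ').Regular := inferInstance
    exact ⟨isCompact_univ.measure_lt_top⟩
  obtain ⟨f, hf, hint⟩ := h F (RealRMK.rieszMeasure Λ') this u hu
  have h1 := hΛ2 f hf
  have h2 : ∫ z, f z ∂(RealRMK.rieszMeasure Λ') = Λ f := by
    have := RealRMK.integral_rieszMeasure Λ' ⟨f, HasCompactSupport.of_compactSpace _⟩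
    exact this
  rw [h2] at hint
  linarith

/-- A measurewise amenable action on a nonempty compact space makes the group exact. -/
theorem exact_of_measAmen [Nonempty Z] (h : MeasAmen G Z) : Pool.Agent.N506.EX.IsExact G := by
  classical
  intro F ε hε
  obtain ⟨f, ⟨K, m, hm, hd⟩, hf⟩ := exists_uniform h (F.image fun s => s⁻¹) hε
  obtain ⟨z0⟩ := ‹Nonempty Z›
  have hinj : ∀ g : G, Function.Injective fun γ : G => g * γ⁻¹ := by
    intro g a b hab
    simpa using hab
  let μ : G → G →₀ ℝ := fun g => Finsupp.onFinset (K.image fun γ => g * γ⁻¹)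
    (fun x => m (x⁻¹ * g) (g⁻¹ • z0)) (by
      intro x hx
      rw [Finset.mem_image]
      refine ⟨x⁻¹ * g, ?_, by group⟩
      by_contra hcon
      apply hx
      rw [hm.supp _ hcon]
      rfl)
  have hμ : ∀ g x, μ g x = m (x⁻¹ * g) (g⁻¹ • z0) := fun g x => rfl
  refine ⟨K.image fun γ => γ⁻¹, μ, fun g x => hm.nonneg _ _, ?_, ?_, ?_⟩
  · intro g
    rw [Finsupp.onFinset_sum _ (fun _ => rfl), Finset.sum_image (fun a _ b _ hab => hinj g hab),
      ← hm.sum (g⁻¹ • z0)]
    refine Finset.sum_congr rfl fun γ _ => ?_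
    congr 2
    group
  · intro g x hx
    rw [Finset.mem_image]
    refine ⟨x⁻¹ * g, ?_, by group⟩
    by_contra hcon
    apply hx
    rw [hμ, hm.supp _ hcon]
    rfl
  · intro g s hs
    set L : Finset G := (μ g - μ (g * s)).support.image (fun x => x⁻¹ * g) with hL
    have h1 := (hd L (g⁻¹ • z0)).trans (hf _)
    refine le_trans ?_ h1
    have hs' : s⁻¹ ∈ F.image fun s => s⁻¹ := Finset.mem_image_of_mem _ hs
    refine le_trans ?_ (Finset.single_le_sum (f := fun t => ∑ γ ∈ L,
      |m γ (g⁻¹ • z0) - m (γ * t⁻¹) (t • g⁻¹ • z0)|)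
      (fun _ _ => Finset.sum_nonneg fun _ _ => abs_nonneg _) hs')
    have hinj2 : Function.Injective fun x : G => x⁻¹ * g := by
      intro a b hab
      simpa using hab
    show _ ≤ ∑ γ ∈ L, |m γ (g⁻¹ • z0) - m (γ * s⁻¹⁻¹) (s⁻¹ • g⁻¹ • z0)|
    rw [hL, Finset.sum_image (fun a _ b _ hab => hinj2 hab)]
    refine le_of_eq (Finset.sum_congr rfl fun x _ => ?_)
    rw [Finsupp.sub_apply, hμ, hμ]
    have e1 : x⁻¹ * (g * s) = x⁻¹ * g * s⁻¹⁻¹ := by group
    have e2 : (g * s)⁻¹ • z0 = s⁻¹ • g⁻¹ • z0 := by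
      rw [smul_smul]
      congr 1
      group
    rw [e1, e2]

end Pool.Agent.V8H43.GS
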