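import Mathlib
import Pool.Agent.V8H43.GS.Hb

/-!
# Free hyperfinite actions are measurewise amenable
-/

set_option autoImplicit false

open Filter Topology MeasureTheory Set
open scoped ENNReal

namespace Pool.Agent.V8H43.GS

theorem real_est {ι : Type} (K : Finset ι) (c b : ι → ℝ) (hb : ∀ i, 0 ≤ b i)
    (hs : ∑ i ∈ K, b i ≤ 1) :
    ∑ i ∈ K, |max (c i) 0 / max (∑ j ∈ K, max (c j) 0) 1 - b i| ≤ 2 * ∑ i ∈ K, |c i - b i| := by
  set T := ∑ j ∈ K, max (c j) 0 with hT
  set M := max T 1 with hM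
  have hM1 : 1 ≤ M := le_max_right _ _
  have hM0 : 0 < M := by linarith
  have h1 : ∀ i, |max (c i) 0 - b i| ≤ |c i - b i| := by
    intro i
    rcases le_total (c i) 0 with h | h
    · rw [max_eq_right h, zero_sub, abs_neg, abs_of_nonneg (hb i), abs_sub_comm,
        abs_of_nonneg (by linarith [hb i])]
      linarith
    · rw [max_eq_left h]
  have h2 : T ≤ 1 + ∑ i ∈ K, |c i - b i| := by
    calc T ≤ ∑ i ∈ K, (b i + |c i - b i|) := Finset.sum_le_sum fun i _ => by
            have h3 := h1 i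
            have h4 := le_abs_self (max (c i) 0 - b i)
            linarith
      _ = ∑ i ∈ K, b i + ∑ i ∈ K, |c i - b i| := Finset.sum_add_distrib
      _ ≤ _ := by linarith
  have h3 : ∑ i ∈ K, |max (c i) 0 / M - max (c i) 0| ≤ ∑ i ∈ K, |c i - b i| := by
    have e : ∀ i, |max (c i) 0 / M - max (c i) 0| = max (c i) 0 * (1 - 1 / M) := by
      intro i
      have h4 : (0:ℝ) ≤ max (c i) 0 := le_max_right _ _
      have h5 : 1 / M ≤ 1 := by
        rw [div_le_one hM0]
        exact hM1
      have h6 : max (c i) 0 / M - max (c i) 0 = -(max (c i) 0 * (1 - 1 / M)) := by ring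
      rw [h6, abs_neg, abs_of_nonneg (mul_nonneg h4 (by linarith))]
    rw [Finset.sum_congr rfl fun i _ => e i, ← Finset.sum_mul, ← hT]
    rcases le_total T 1 with h | h
    · have : M = 1 := max_eq_right h
      rw [this]
      simpa using Finset.sum_nonneg fun i _ => abs_nonneg (c i - b i)
    · have h7 : M = T := max_eq_left h
      have h8 : T ≠ 0 := by
        intro h9
        rw [h9] at h
        linarith
      rw [h7]
      have : T * (1 - 1 / T) = T - 1 := by field_simp
      rw [this]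
      linarith
  calc ∑ i ∈ K, |max (c i) 0 / M - b i|
      ≤ ∑ i ∈ K, (|max (c i) 0 / M - max (c i) 0| + |c i - b i|) := by
        refine Finset.sum_le_sum fun i _ => ?_
        have h4 := abs_add_le (max (c i) 0 / M - max (c i) 0) (max (c i) 0 - b i)
        rw [sub_add_sub_cancel] at h4
        linarith [h1 i]
    _ = ∑ i ∈ K, |max (c i) 0 / M - max (c i) 0| + ∑ i ∈ K, |c i - b i| := Finset.sum_add_distrib
    _ ≤ _ := by linarith

section proj

variable {G : Type} [Group G] [DecidableEq G] {Z : Type} [TopologicalSpace Z]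

/-- normalisation of a family of continuous functions -/
noncomputable def nrm (K : Finset G) (c : G → C(Z, ℝ)) (γ : G) : C(Z, ℝ) :=
  ⟨fun z => max (c γ z) 0 / max (∑ j ∈ K, max (c j z) 0) 1, by
    refine Continuous.div (by fun_prop) (by fun_prop) fun z => ?_
    have : (1:ℝ) ≤ max (∑ j ∈ K, max (c j z) 0) 1 := le_max_right _ _
    intro h
    rw [h] at this
    linarith⟩

/-- the continuous family of probability vectors -/
noncomputable def wt (K : Finset G) (c : G → C(Z, ℝ)) (γ : G) : C(Z, ℝ) :=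
  if γ = 1 then 1 - ∑ j ∈ K.erase 1, nrm (K.erase 1) c j
  else if γ ∈ K then nrm (K.erase 1) c γ else 0

omit [Group G] [DecidableEq G] in
theorem nrm_nonneg (K : Finset G) (c : G → C(Z, ℝ)) (γ : G) (z : Z) : 0 ≤ nrm K c γ z := by
  have h1 : (0:ℝ) ≤ max (c γ z) 0 := le_max_right _ _
  have h2 : (0:ℝ) ≤ max (∑ j ∈ K, max (c j z) 0) 1 := le_trans zero_le_one (le_max_right _ _)
  exact div_nonneg h1 h2

omit [Group G] [DecidableEq G] in
theorem sum_nrm_le (K : Finset G) (c : G → C(Z, ℝ)) (z : Z) : ∑ j ∈ K, nrm K c j z ≤ 1 := by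
  have h2 : (1:ℝ) ≤ max (∑ j ∈ K, max (c j z) 0) 1 := le_max_right _ _
  show ∑ j ∈ K, max (c j z) 0 / max (∑ j ∈ K, max (c j z) 0) 1 ≤ 1
  rw [← Finset.sum_div, div_le_one (by linarith)]
  exact le_max_left _ _

theorem wt_one (K : Finset G) (c : G → C(Z, ℝ)) (z : Z) :
    wt K c 1 z = 1 - ∑ j ∈ K.erase 1, nrm (K.erase 1) c j z := by
  simp [wt]

theorem wt_ne {K : Finset G} (c : G → C(Z, ℝ)) {γ : G} (h : γ ≠ 1) (hK : γ ∈ K) (z : Z) :
    wt K c γ z = nrm (K.erase 1) c γ z := by
  simp [wt, h, hK]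

theorem wt_spec {K : Finset G} (hK : (1:G) ∈ K) (c : G → C(Z, ℝ)) : Wt K (wt K c) where
  nonneg g z := by
    by_cases h : g = 1
    · subst h
      rw [wt_one]
      linarith [sum_nrm_le (K.erase 1) c z]
    · by_cases h2 : g ∈ K
      · rw [wt_ne c h h2]
        exact nrm_nonneg _ _ _ _
      · simp [wt, h, h2]
  supp g hg := by
    have : g ≠ 1 := by
      rintro rfl
      exact hg hK
    simp [wt, this, hg]
  sum z := by
    rw [← Finset.add_sum_erase K _ hK, wt_one]
    have : ∑ x ∈ K.erase 1, (wt K c x) z = ∑ j ∈ K.erase 1, nrm (K.erase 1) c j z :=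
      Finset.sum_congr rfl fun x hx => by
        rw [Finset.mem_erase] at hx
        exact wt_ne c hx.1 hx.2 z
    rw [this]
    ring

theorem wt_est {K : Finset G} (hK : (1:G) ∈ K) (c : G → C(Z, ℝ)) (b : G → ℝ)
    (hb : ∀ i, 0 ≤ b i) (hs : ∑ i ∈ K, b i = 1) (z : Z) :
    ∑ γ ∈ K, |wt K c γ z - b γ| ≤ 4 * ∑ γ ∈ K, |c γ z - b γ| := by
  have hs' := hs
  rw [← Finset.add_sum_erase K _ hK] at hs'
  have h0 : ∑ i ∈ K.erase 1, b i ≤ 1 := by linarith [hb 1]
  have h1 := real_est (K.erase 1) (fun γ => c γ z) b hb h0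
  have h2 : ∑ γ ∈ K.erase 1, |wt K c γ z - b γ| ≤ 2 * ∑ i ∈ K.erase 1, |c i z - b i| := by
    refine le_trans (le_of_eq ?_) h1
    refine Finset.sum_congr rfl fun x hx => ?_
    rw [Finset.mem_erase] at hx
    rw [wt_ne c hx.1 hx.2 z]
    rfl
  have h3 : |wt K c 1 z - b 1| ≤ ∑ γ ∈ K.erase 1, |wt K c γ z - b γ| := by
    have h4 : wt K c 1 z - b 1 = -∑ γ ∈ K.erase 1, (wt K c γ z - b γ) := by
      rw [Finset.sum_sub_distrib]
      have h5 := (wt_spec hK c).sum z
      rw [← Finset.add_sum_erase K _ hK] at h5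
      linarith
    rw [h4, abs_neg]
    exact Finset.abs_sum_le_sum_abs _ _
  have h6 : ∑ i ∈ K.erase 1, |c i z - b i| ≤ ∑ γ ∈ K, |c γ z - b γ| :=
    Finset.sum_le_sum_of_subset_of_nonneg (Finset.erase_subset _ _) fun _ _ _ => abs_nonneg _
  rw [← Finset.add_sum_erase K _ hK]
  linarith

end proj

/-- the orbit equivalence relation is hyperfinite -/
def HypOrb (G Z : Type) [Group G] [MulAction G Z] [MeasurableSpace Z] : Prop :=
  ∃ R : ℕ → Z → Z → Prop, (∀ n, Equivalence (R n)) ∧
    (∀ n, MeasurableSet {p : Z × Z | R n p.1 p.2}) ∧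
    (∀ n z, {w | R n z w}.Finite) ∧
    (∀ n z w, R n z w → R (n + 1) z w) ∧
    (∀ z w, (∃ n, R n z w) ↔ ∃ g : G, w = g • z)

section borel

variable {G : Type} [Group G] {Z : Type} [MulAction G Z]

open Classical in
/-- the number of translates in `K` that are equivalent to `z` -/
noncomputable def cnt (Q : Z → Z → Prop) (K : Finset G) (z : Z) : ℝ :=
  ∑ γ ∈ K, if Q z (γ • z) then (1:ℝ) else 0

open Classical in
/-- the Borel family of probability vectors -/
noncomputable def bor (Q : Z → Z → Prop) (K : Finset G) (γ : G) (z : Z) : ℝ :=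
  if γ ∈ K ∧ Q z (γ • z) then 1 / cnt Q K z else 0

variable {Q : Z → Z → Prop} (hQ : Equivalence Q) {K : Finset G} (hK : (1:G) ∈ K)

include hQ hK in
theorem cnt_pos (z : Z) : 1 ≤ cnt Q K z := by
  classical
  have h1 : (if Q z ((1:G) • z) then (1:ℝ) else 0) ≤ cnt Q K z :=
    Finset.single_le_sum (f := fun γ : G => if Q z (γ • z) then (1:ℝ) else 0)
      (fun i _ => by positivity) hK
  rw [if_pos (by rw [one_smul]; exact hQ.refl z)] at h1
  exact h1

include hQ hK in
theorem bor_nonneg (γ : G) (z : Z) : 0 ≤ bor Q K γ z := by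
  have := cnt_pos hQ hK z
  rw [bor]
  split_ifs
  · positivity
  · exact le_rfl

include hQ hK in
theorem bor_le (γ : G) (z : Z) : bor Q K γ z ≤ 1 := by
  have := cnt_pos hQ hK z
  rw [bor]
  split_ifs
  · rw [div_le_one (by linarith)]
    exact this
  · exact zero_le_one

include hQ hK in
theorem sum_bor (z : Z) : ∑ γ ∈ K, bor Q K γ z = 1 := by
  classical
  have h := cnt_pos hQ hK z
  have h1 : ∀ γ ∈ K, bor Q K γ z = (if Q z (γ • z) then (1:ℝ) else 0) / cnt Q K z := by
    intro γ hγ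
    rw [bor]
    by_cases h2 : Q z (γ • z)
    · rw [if_pos ⟨hγ, h2⟩, if_pos h2]
    · rw [if_neg (fun h => h2 h.2), if_neg h2, zero_div]
  rw [Finset.sum_congr rfl h1, ← Finset.sum_div]
  show cnt Q K z / cnt Q K z = 1
  exact div_self (by linarith [h])

theorem bor_supp {γ : G} (hγ : γ ∉ K) (z : Z) : bor Q K γ z = 0 := by
  rw [bor, if_neg fun h => hγ h.1]

/-- the set where `K` does not catch the class -/
def Dst (Q : Z → Z → Prop) (K : Finset G) : Set Z := {z | ∃ γ, γ ∉ K ∧ Q z (γ • z)}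

include hQ in
/-- invariance at good points -/
theorem bor_inv {z : Z} {s : G} (h1 : Q z (s • z)) (h2 : z ∉ Dst Q K) (h3 : s • z ∉ Dst Q K)
    (γ : G) : bor Q K γ z = bor Q K (γ * s⁻¹) (s • z) := by
  classical
  have h2' : ∀ γ, Q z (γ • z) → γ ∈ K := fun γ h => by
    by_contra h4
    exact h2 ⟨γ, h4, h⟩
  have h3' : ∀ γ, Q (s • z) (γ • s • z) → γ ∈ K := fun γ h => by
    by_contra h4
    exact h3 ⟨γ, h4, h⟩
  have key : ∀ γ : G, Q (s • z) ((γ * s⁻¹) • s • z) ↔ Q z (γ • z) := by
    intro γ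
    have e : (γ * s⁻¹) • s • z = γ • z := by
      rw [smul_smul]
      congr 1
      group
    rw [e]
    exact ⟨fun h => hQ.trans h1 h, fun h => hQ.trans (hQ.symm h1) h⟩
  have hc : cnt Q K z = cnt Q K (s • z) := by
    rw [cnt, cnt, Finset.sum_ite, Finset.sum_ite]
    simp only [Finset.sum_const, nsmul_eq_mul, mul_one]
    norm_cast
    refine Finset.card_bij (fun γ _ => γ * s⁻¹) ?_ ?_ ?_
    · intro γ hγ
      rw [Finset.mem_filter] at hγ ⊢
      have := (key γ).2 hγ.2
      exact ⟨h3' _ this, this⟩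
    · intro a _ b _ hab
      exact mul_right_cancel hab
    · intro γ hγ
      rw [Finset.mem_filter] at hγ
      have h5 : Q z ((γ * s) • z) := by
        rw [← key, mul_inv_cancel_right]
        exact hγ.2
      refine ⟨γ * s, ?_, mul_inv_cancel_right _ _⟩
      rw [Finset.mem_filter]
      exact ⟨h2' _ h5, h5⟩
  rw [bor, bor, hc]
  by_cases h : Q z (γ • z)
  · rw [if_pos ⟨h2' _ h, h⟩, if_pos ⟨h3' _ ((key γ).2 h), (key γ).2 h⟩]
  · rw [if_neg fun h' => h h'.2, if_neg fun h' => h ((key γ).1 h'.2)]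

end borel

section meas

variable {G : Type} [Group G] [Countable G] {Z : Type} [TopologicalSpace Z] [CompactSpace Z]
  [T2Space Z] [SecondCountableTopology Z] [MeasurableSpace Z] [BorelSpace Z] [MulAction G Z]
  [ContinuousConstSMul G Z]

omit [Countable G] [CompactSpace Z] [T2Space Z] [SecondCountableTopology Z] in
theorem meas_rel {Q : Z → Z → Prop} (hm : MeasurableSet {p : Z × Z | Q p.1 p.2}) (γ : G) :
    MeasurableSet {z : Z | Q z (γ • z)} := by
  have h1 : Measurable fun z : Z => (z, γ • z) :=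
    Measurable.prodMk measurable_id (continuous_const_smul γ).measurable
  exact h1 hm

omit [Countable G] [CompactSpace Z] [T2Space Z] [SecondCountableTopology Z] in
theorem meas_cnt {Q : Z → Z → Prop} (hm : MeasurableSet {p : Z × Z | Q p.1 p.2})
    (K : Finset G) : Measurable (cnt Q K : Z → ℝ) := by
  classical
  unfold cnt
  refine Finset.measurable_sum _ fun γ _ => ?_
  exact Measurable.ite (meas_rel hm γ) measurable_const measurable_const

omit [Countable G] [CompactSpace Z] [T2Space Z] [SecondCountableTopology Z] in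
theorem meas_bor {Q : Z → Z → Prop} (hm : MeasurableSet {p : Z × Z | Q p.1 p.2})
    (K : Finset G) (γ : G) : Measurable (bor Q K γ : Z → ℝ) := by
  classical
  unfold bor
  refine Measurable.ite ?_ (measurable_const.div (meas_cnt hm K)) measurable_const
  by_cases h : γ ∈ K
  · simpa [h] using meas_rel hm γ
  · simp [h]

omit [CompactSpace Z] [T2Space Z] [SecondCountableTopology Z] in
theorem meas_Dst {Q : Z → Z → Prop} (hm : MeasurableSet {p : Z × Z | Q p.1 p.2})
    (K : Finset G) : MeasurableSet (Dst Q K : Set Z) := by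
  have : (Dst Q K : Set Z) = ⋃ γ : G, {z | γ ∉ K ∧ Q z (γ • z)} := by
    ext z
    simp [Dst]
  rw [this]
  refine MeasurableSet.iUnion fun γ => ?_
  by_cases h : γ ∈ K
  · simp [h]
  · simpa [h] using meas_rel hm γ

omit [Countable G] [CompactSpace Z] [T2Space Z] [SecondCountableTopology Z] [MeasurableSpace Z]
  [BorelSpace Z] [ContinuousConstSMul G Z] in
/-- pointwise estimate of the defect -/
theorem defect_le {Q : Z → Z → Prop} (hQ : Equivalence Q) [DecidableEq G] {K : Finset G}
    (hK : (1:G) ∈ K) (c : G → C(Z, ℝ)) (s : G) (z : Z) :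
    ∑ γ ∈ K ∪ K.image (· * s), |wt K c γ z - wt K c (γ * s⁻¹) (s • z)| ≤
      4 * (∑ γ ∈ K, |c γ z - bor Q K γ z|) + 4 * (∑ γ ∈ K, |c γ (s • z) - bor Q K γ (s • z)|) +
      2 * ({z | ¬ Q z (s • z)} ∪ Dst Q K ∪ (s • ·) ⁻¹' Dst Q K : Set Z).indicator 1 z := by
  set A := K ∪ K.image (· * s) with hA
  have t1 : ∑ γ ∈ A, |wt K c γ z - bor Q K γ z| ≤ 4 * (∑ γ ∈ K, |c γ z - bor Q K γ z|) := by
    refine le_trans (le_of_eq ?_) (wt_est hK c (fun γ => bor Q K γ z)
      (fun γ => bor_nonneg hQ hK γ z) (sum_bor hQ hK z) z)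
    symm
    refine Finset.sum_subset Finset.subset_union_left fun γ _ hγ => ?_
    rw [(wt_spec hK c).supp γ hγ, bor_supp hγ]
    simp
  have himg : ∀ f : G → ℝ, (∀ γ, γ ∉ K → f γ = 0) → ∑ γ ∈ A, f (γ * s⁻¹) = ∑ γ ∈ K, f γ := by
    intro f hf
    have h1 : ∑ γ ∈ K.image (· * s), f (γ * s⁻¹) = ∑ γ ∈ K, f γ := by
      rw [Finset.sum_image fun a _ b _ hab => mul_right_cancel hab]
      refine Finset.sum_congr rfl fun γ _ => ?_
      rw [mul_inv_cancel_right]
    rw [← h1]
    symm
    refine Finset.sum_subset Finset.subset_union_right fun γ _ hγ => hf _ fun h => hγ ?_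
    rw [Finset.mem_image]
    exact ⟨_, h, inv_mul_cancel_right _ _⟩
  have t3 : ∑ γ ∈ A, |wt K c (γ * s⁻¹) (s • z) - bor Q K (γ * s⁻¹) (s • z)| ≤
      4 * (∑ γ ∈ K, |c γ (s • z) - bor Q K γ (s • z)|) := by
    refine le_trans (le_of_eq ?_) (wt_est hK c (fun γ => bor Q K γ (s • z))
      (fun γ => bor_nonneg hQ hK γ _) (sum_bor hQ hK _) (s • z))
    refine himg (fun γ => |wt K c γ (s • z) - bor Q K γ (s • z)|) fun γ hγ => ?_
    rw [(wt_spec hK c).supp γ hγ, bor_supp hγ]
    simp
  have t2 : ∑ γ ∈ A, |bor Q K γ z - bor Q K (γ * s⁻¹) (s • z)| ≤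
      2 * ({z | ¬ Q z (s • z)} ∪ Dst Q K ∪ (s • ·) ⁻¹' Dst Q K : Set Z).indicator 1 z := by
    by_cases hz : z ∈ ({z | ¬ Q z (s • z)} ∪ Dst Q K ∪ (s • ·) ⁻¹' Dst Q K : Set Z)
    · rw [indicator_of_mem hz, Pi.one_apply]
      calc ∑ γ ∈ A, |bor Q K γ z - bor Q K (γ * s⁻¹) (s • z)|
          ≤ ∑ γ ∈ A, (bor Q K γ z + bor Q K (γ * s⁻¹) (s • z)) := by
            refine Finset.sum_le_sum fun γ _ => ?_
            have h1 := bor_nonneg hQ hK γ z
            have h2 := bor_nonneg hQ hK (γ * s⁻¹) (s • z)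
            rw [abs_le]
            constructor <;> linarith
        _ = ∑ γ ∈ A, bor Q K γ z + ∑ γ ∈ A, bor Q K (γ * s⁻¹) (s • z) := Finset.sum_add_distrib
        _ = 1 + 1 := by
            congr 1
            · rw [← sum_bor hQ hK z]
              symm
              exact Finset.sum_subset Finset.subset_union_left fun γ _ hγ => bor_supp hγ _
            · rw [← sum_bor hQ hK (s • z)]
              exact himg (fun γ => bor Q K γ (s • z)) fun γ hγ => bor_supp hγ _
        _ ≤ 2 * 1 := by norm_num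
    · rw [indicator_of_notMem hz, mul_zero]
      simp only [mem_union, mem_ofPred_eq, mem_preimage, not_or, not_not] at hz
      refine le_of_eq (Finset.sum_eq_zero fun γ _ => ?_)
      rw [bor_inv hQ hz.1.1 hz.1.2 hz.2 γ]
      simp
  calc ∑ γ ∈ A, |wt K c γ z - wt K c (γ * s⁻¹) (s • z)|
      ≤ ∑ γ ∈ A, (|wt K c γ z - bor Q K γ z| +
          |wt K c (γ * s⁻¹) (s • z) - bor Q K (γ * s⁻¹) (s • z)| +
          |bor Q K γ z - bor Q K (γ * s⁻¹) (s • z)|) := by
        refine Finset.sum_le_sum fun γ _ => ?_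
        have e : wt K c γ z - wt K c (γ * s⁻¹) (s • z) = (wt K c γ z - bor Q K γ z) +
          (bor Q K γ z - bor Q K (γ * s⁻¹) (s • z)) -
          (wt K c (γ * s⁻¹) (s • z) - bor Q K (γ * s⁻¹) (s • z)) := by ring
        rw [e]
        refine (abs_sub _ _).trans ?_
        have := abs_add_le (wt K c γ z - bor Q K γ z) (bor Q K γ z - bor Q K (γ * s⁻¹) (s • z))
        linarith
    _ = ∑ γ ∈ A, |wt K c γ z - bor Q K γ z| +
          ∑ γ ∈ A, |wt K c (γ * s⁻¹) (s • z) - bor Q K (γ * s⁻¹) (s • z)| +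
          ∑ γ ∈ A, |bor Q K γ z - bor Q K (γ * s⁻¹) (s • z)| := by
        rw [Finset.sum_add_distrib, Finset.sum_add_distrib]
    _ ≤ _ := by linarith

theorem measAmen_of_hyp (hfree : ∀ (g : G) (z : Z), g • z = z → g = 1) (h : HypOrb G Z) :
    MeasAmen G Z := by
  classical
  obtain ⟨R, hE, hM, hF, hI, hO⟩ := h
  intro F ν hν ε hε
  -- the sum measure
  set ν' : Measure Z := ν + ∑ s ∈ F, ν.map (s • ·) with hν'
  have hsm : ∀ s : G, Measurable fun z : Z => s • z := fun s =>
    (continuous_const_smul s).measurable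
  have hfin : ∀ s : G, IsFiniteMeasure (ν.map fun z => s • z) := fun s => inferInstance
  have : IsFiniteMeasure ν' := by
    rw [hν']
    infer_instance
  have hle1 : ν ≤ ν' := by
    rw [hν']
    exact Measure.le_add_right le_rfl
  have hle2 : ∀ s ∈ F, ν.map (fun z => s • z) ≤ ν' := by
    intro s hs
    rw [hν']
    refine Measure.le_add_left ?_
    exact Finset.single_le_sum (f := fun s : G => ν.map (fun z => s • z))
      (fun s _ => Measure.zero_le (ν.map fun z => s • z)) hs
  -- the parameters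
  set a : ℝ := (F.card : ℝ) + 1 with ha
  have ha0 : 0 < a := by positivity
  set δ : ℝ := ε / (12 * a) with hδ
  have hδ0 : 0 < δ := by positivity
  -- choice of `n`
  have hn : ∀ s ∈ F, ∀ᶠ n in atTop, ν.real {z | ¬ R n z (s • z)} < δ := by
    intro s _
    have hmeas : ∀ n, MeasurableSet {z | ¬ R n z (s • z)} := fun n => (meas_rel (hM n) s).compl
    have hanti : Antitone fun n => {z | ¬ R n z (s • z)} :=
      antitone_nat_of_succ_le fun n z hz h => hz (hI n _ _ h)
    have h1 := tendsto_measure_iInter_atTop (μ := ν) (fun n => (hmeas n).nullMeasurableSet) hanti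
      ⟨0, measure_ne_top _ _⟩
    have h2 : ⋂ n, {z | ¬ R n z (s • z)} = ∅ := by
      ext z
      simp only [mem_iInter, mem_ofPred_eq, mem_empty_iff_false, iff_false, not_forall, not_not]
      exact (hO z (s • z)).2 ⟨s, rfl⟩
    rw [h2, measure_empty] at h1
    have h3 : Tendsto (fun n => ν.real {z | ¬ R n z (s • z)}) atTop (𝓝 0) :=
      (ENNReal.tendsto_toReal ENNReal.zero_ne_top).comp h1
    exact h3.eventually_lt_const hδ0
  obtain ⟨n, hn⟩ := ((Filter.eventually_all_finset F).2 hn).exists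
  set Q := R n with hQdef
  have hQ : Equivalence Q := hE n
  have hQm : MeasurableSet {p : Z × Z | Q p.1 p.2} := hM n
  -- choice of `K`
  obtain ⟨en, hen⟩ := exists_surjective_nat G
  let Kj : ℕ → Finset G := fun j => insert 1 ((Finset.range j).image en)
  have hKj : Monotone Kj := fun i j hij =>
    Finset.insert_subset_insert _ (Finset.image_subset_image (Finset.range_mono hij))
  have hKev : ∀ᶠ j in atTop, ν'.real (Dst Q (Kj j)) < δ := by
    have hanti : Antitone fun j => (Dst Q (Kj j) : Set Z) := by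
      rintro i j hij z ⟨γ, h1, h2⟩
      exact ⟨γ, fun h => h1 (hKj hij h), h2⟩
    have h1 := tendsto_measure_iInter_atTop (μ := ν')
      (fun j => (meas_Dst hQm (Kj j)).nullMeasurableSet) hanti ⟨0, measure_ne_top _ _⟩
    have h2 : ⋂ j, (Dst Q (Kj j) : Set Z) = ∅ := by
      ext z
      simp only [mem_iInter, mem_empty_iff_false, iff_false]
      intro hall
      have hfinC : {γ : G | Q z (γ • z)}.Finite := by
        refine Set.Finite.of_finite_image ((hF n z).subset ?_) (f := fun γ : G => γ • z) ?_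
        · rintro _ ⟨γ, hγ, rfl⟩
          exact hγ
        · intro g _ k _ hgk
          have h4 : (k⁻¹ * g) • z = z := by
            have h5 : g • z = k • z := hgk
            rw [mul_smul, h5, inv_smul_smul]
          have h6 := hfree _ _ h4
          exact (inv_mul_eq_one.1 h6).symm
      obtain ⟨j, hj⟩ : ∃ j, ∀ γ ∈ hfinC.toFinset, γ ∈ Kj j := by
        choose u hu using hen
        refine ⟨hfinC.toFinset.sup u + 1, fun γ hγ => ?_⟩
        refine Finset.mem_insert_of_mem (Finset.mem_image.2 ⟨u γ, ?_, hu γ⟩)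
        rw [Finset.mem_range]
        exact Nat.lt_succ_of_le (Finset.le_sup hγ)
      obtain ⟨γ, h7, h8⟩ := hall j
      exact h7 (hj γ (by simpa using h8))
    rw [h2, measure_empty] at h1
    have h3 : Tendsto (fun j => ν'.real (Dst Q (Kj j))) atTop (𝓝 0) :=
      (ENNReal.tendsto_toReal ENNReal.zero_ne_top).comp h1
    exact h3.eventually_lt_const hδ0
  obtain ⟨j, hj⟩ := hKev.exists
  set K := Kj j with hKdef
  have hK : (1:G) ∈ K := Finset.mem_insert_self _ _
  -- approximation by continuous functions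
  set η : ℝ := ε / (16 * a * ((K.card : ℝ) + 1)) with hη
  have hη0 : 0 < η := by positivity
  have hbint : ∀ γ, Integrable (bor Q K γ) ν' := by
    intro γ
    refine Integrable.of_bound (meas_bor hQm K γ).aestronglyMeasurable 1
      (Eventually.of_forall fun z => ?_)
    rw [Real.norm_of_nonneg (bor_nonneg hQ hK γ z)]
    exact bor_le hQ hK γ z
  have happ : ∀ γ : G, ∃ c : C(Z, ℝ), ∫ z, |c z - bor Q K γ z| ∂ν' ≤ η := by
    intro γ
    obtain ⟨g, hg, -⟩ := (hbint γ).exists_boundedContinuous_integral_sub_le hη0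
    refine ⟨g.toContinuousMap, le_trans (le_of_eq ?_) hg⟩
    refine integral_congr_ae (Eventually.of_forall fun z => ?_)
    show |g z - bor Q K γ z| = ‖bor Q K γ z - g z‖
    rw [Real.norm_eq_abs, abs_sub_comm]
  choose c hc using happ
  set e : Z → ℝ := fun z => ∑ γ ∈ K, |c γ z - bor Q K γ z| with he
  have hcint : ∀ γ, Integrable (fun z => |c γ z - bor Q K γ z|) ν' := fun γ =>
    ((c γ).continuous.integrable_of_hasCompactSupport
      (HasCompactSupport.of_compactSpace _)).sub (hbint γ) |>.abs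
  have heint : Integrable e ν' := integrable_finsetSum _ fun γ _ => hcint γ
  have hem : Measurable e := by
    refine Finset.measurable_sum _ fun γ _ => ?_
    exact ((c γ).continuous.measurable.sub (meas_bor hQm K γ)).abs
  have he0 : ∀ z, 0 ≤ e z := fun z => Finset.sum_nonneg fun _ _ => abs_nonneg _
  have heν' : ∫ z, e z ∂ν' ≤ K.card * η := by
    rw [he, integral_finsetSum _ fun γ _ => hcint γ]
    refine (Finset.sum_le_sum fun γ _ => hc γ).trans ?_
    rw [Finset.sum_const, nsmul_eq_mul]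
  have hKη : (K.card : ℝ) * η ≤ ε / (16 * a) := by
    rw [hη]
    have h1 : (K.card : ℝ) * (ε / (16 * a * ((K.card : ℝ) + 1))) =
        ε / (16 * a) * ((K.card : ℝ) / ((K.card : ℝ) + 1)) := by
      field_simp
    rw [h1]
    have h2 : (K.card : ℝ) / ((K.card : ℝ) + 1) ≤ 1 := by
      rw [div_le_one (by positivity)]
      linarith
    have h3 : 0 < ε / (16 * a) := by positivity
    nlinarith
  -- the defect
  let f : C(Z, ℝ) := ∑ s ∈ F, ∑ γ ∈ K ∪ K.image (· * s),
    ⟨fun z => |wt K c γ z - wt K c (γ * s⁻¹) (s • z)|, by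
      have h1 : Continuous fun z : Z => s • z := continuous_const_smul s
      have h2 := (wt K c (γ * s⁻¹)).continuous.comp h1
      exact ((wt K c γ).continuous.sub h2).abs⟩
  have hfz : ∀ z, f z = ∑ s ∈ F, ∑ γ ∈ K ∪ K.image (· * s),
      |wt K c γ z - wt K c (γ * s⁻¹) (s • z)| := by
    intro z
    simp [f]
  refine ⟨f, ⟨K, wt K c, wt_spec hK c, ?_⟩, ?_⟩
  · intro L z
    rw [hfz]
    refine Finset.sum_le_sum fun s _ => ?_
    have h1 : ∑ γ ∈ L, |wt K c γ z - wt K c (γ * s⁻¹) (s • z)| ≤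
        ∑ γ ∈ L ∪ (K ∪ K.image (· * s)), |wt K c γ z - wt K c (γ * s⁻¹) (s • z)| :=
      Finset.sum_le_sum_of_subset_of_nonneg Finset.subset_union_left fun _ _ _ => abs_nonneg _
    refine h1.trans (le_of_eq ?_)
    symm
    refine Finset.sum_subset Finset.subset_union_right fun γ _ hγ => ?_
    rw [Finset.mem_union, not_or] at hγ
    have h2 : γ * s⁻¹ ∉ K := fun h => hγ.2 (Finset.mem_image.2 ⟨_, h, inv_mul_cancel_right _ _⟩)
    rw [(wt_spec hK c).supp γ hγ.1, (wt_spec hK c).supp _ h2]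
    simp
  · have hpt : ∀ z, f z ≤ ∑ s ∈ F, (4 * e z + 4 * e (s • z) +
        2 * ({z | ¬ Q z (s • z)} ∪ Dst Q K ∪ (s • ·) ⁻¹' Dst Q K : Set Z).indicator 1 z) := by
      intro z
      rw [hfz]
      exact Finset.sum_le_sum fun s _ => defect_le hQ hK c s z
    have hBm : ∀ s, MeasurableSet ({z | ¬ Q z (s • z)} ∪ Dst Q K ∪ (s • ·) ⁻¹' Dst Q K : Set Z) :=
      fun s => ((meas_rel hQm s).compl.union (meas_Dst hQm K)).union
        (hsm s (meas_Dst hQm K))
    have hi1 : Integrable e ν := heint.mono_measure hle1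
    have hi2 : ∀ s ∈ F, Integrable (fun z => e (s • z)) ν := by
      intro s hs
      have h1 : Integrable e (ν.map fun z => s • z) := heint.mono_measure (hle2 s hs)
      exact (integrable_map_measure hem.aestronglyMeasurable (hsm s).aemeasurable).1 h1
    have hi3 : ∀ s, Integrable (({z | ¬ Q z (s • z)} ∪ Dst Q K ∪ (s • ·) ⁻¹' Dst Q K :
        Set Z).indicator (1 : Z → ℝ)) ν := fun s => (integrable_const (1:ℝ)).indicator (hBm s)
    have hfint : Integrable (fun z => f z) ν :=
      f.continuous.integrable_of_hasCompactSupport (HasCompactSupport.of_compactSpace _)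
    have hterm : ∀ s ∈ F, Integrable (fun z => 4 * e z + 4 * e (s • z) +
        2 * ({z | ¬ Q z (s • z)} ∪ Dst Q K ∪ (s • ·) ⁻¹' Dst Q K : Set Z).indicator 1 z) ν :=
      fun s hs => ((hi1.const_mul 4).add ((hi2 s hs).const_mul 4)).add ((hi3 s).const_mul 2)
    have h1 : ∫ z, f z ∂ν ≤ ∑ s ∈ F, ∫ z, (4 * e z + 4 * e (s • z) +
        2 * ({z | ¬ Q z (s • z)} ∪ Dst Q K ∪ (s • ·) ⁻¹' Dst Q K : Set Z).indicator 1 z) ∂ν := by
      rw [← integral_finsetSum _ hterm]
      exact integral_mono hfint (integrable_finsetSum _ hterm) hpt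
    have h2 : ∀ s ∈ F, ∫ z, (4 * e z + 4 * e (s • z) +
        2 * ({z | ¬ Q z (s • z)} ∪ Dst Q K ∪ (s • ·) ⁻¹' Dst Q K : Set Z).indicator 1 z) ∂ν ≤
        8 * (ε / (16 * a)) + 2 * (3 * δ) := by
      intro s hs
      have i12 : Integrable (fun z => 4 * e z + 4 * e (s • z)) ν :=
        (hi1.const_mul 4).add ((hi2 s hs).const_mul 4)
      rw [integral_add i12 ((hi3 s).const_mul 2),
        integral_add (hi1.const_mul 4) ((hi2 s hs).const_mul 4), integral_const_mul,
        integral_const_mul, integral_const_mul, integral_indicator_one (hBm s)]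
      have h3 : ∫ z, e z ∂ν ≤ ε / (16 * a) :=
        (integral_mono_measure hle1 (Eventually.of_forall he0) heint).trans (heν'.trans hKη)
      have h4 : ∫ z, e (s • z) ∂ν ≤ ε / (16 * a) := by
        have h5 := integral_map (hsm s).aemeasurable (μ := ν) (f := e) hem.aestronglyMeasurable
        rw [← h5]
        exact (integral_mono_measure (hle2 s hs) (Eventually.of_forall he0) heint).trans
          (heν'.trans hKη)
      have h6 : ν.real ({z | ¬ Q z (s • z)} ∪ Dst Q K ∪ (s • ·) ⁻¹' Dst Q K : Set Z) ≤ 3 * δ := by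
        have h7 : ν.real (Dst Q K) ≤ ν'.real (Dst Q K) := by
          rw [measureReal_def, measureReal_def]
          exact ENNReal.toReal_mono (measure_ne_top _ _) (hle1 _)
        have h8 : ν.real ((s • ·) ⁻¹' Dst Q K : Set Z) ≤ ν'.real (Dst Q K) := by
          rw [measureReal_def, measureReal_def, ← Measure.map_apply (hsm s) (meas_Dst hQm K)]
          exact ENNReal.toReal_mono (measure_ne_top _ _) (hle2 s hs _)
        have h9 := measureReal_union_le (μ := ν) ({z | ¬ Q z (s • z)} ∪ Dst Q K)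
          ((s • ·) ⁻¹' Dst Q K : Set Z)
        have h10 := measureReal_union_le (μ := ν) {z | ¬ Q z (s • z)} (Dst Q K)
        have h11 := hn s hs
        linarith
      linarith
    refine lt_of_le_of_lt (h1.trans (Finset.sum_le_sum h2)) ?_
    rw [Finset.sum_const, nsmul_eq_mul]
    have h3 : 8 * (ε / (16 * a)) + 2 * (3 * δ) = ε / a := by
      rw [hδ]
      field_simp
      ring
    rw [h3]
    have h4 : (F.card : ℝ) * (ε / a) = ε - ε / a := by
      rw [ha]
      field_simp
      ring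
    rw [h4]
    have : 0 < ε / a := by positivity
    linarith

end meas

end Pool.Agent.V8H43.GS
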