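import Mathlib
import Pool.Agent.V8H43.GS.Hyp

/-!
# The space of subshifts of the Hilbert cube and the generic freeness
-/

set_option autoImplicit false

open Filter Topology Set TopologicalSpace
open scoped Uniformity

namespace Pool.Agent.V8H43.GS

section shift

variable {G : Type} [Group G] {A : Type}

/-- The shift: `(γ · x)(δ) = x (γ⁻¹ δ)`. -/
def shift (γ : G) (x : G → A) : G → A := fun δ => x (γ⁻¹ * δ)

theorem shift_one (x : G → A) : shift 1 x = x := by
  funext δ
  simp [shift]

theorem shift_mul (γ γ' : G) (x : G → A) : shift (γ * γ') x = shift γ (shift γ' x) := by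
  funext δ
  simp [shift, mul_assoc]

theorem continuous_shift [TopologicalSpace A] (γ : G) :
    Continuous (shift γ : (G → A) → G → A) :=
  continuous_pi fun _ => continuous_apply _

end shift

/-- The space of subshifts of the Hilbert cube shift, with the topology induced by the Vietoris
topology of the space of compact subsets. -/
def Shf (G : Type) [Group G] : Type :=
  {K : Compacts (G → ℕ → unitInterval) // ∀ γ : G, ∀ x ∈ K, shift γ x ∈ K}

instance (G : Type) [Group G] : TopologicalSpace (Shf G) :=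
  inferInstanceAs (TopologicalSpace {K : Compacts (G → ℕ → unitInterval) //
    ∀ γ : G, ∀ x ∈ K, shift γ x ∈ K})

variable {G : Type} [Group G]

theorem isClosed_shf : IsClosed {K : Compacts (G → ℕ → unitInterval) |
    ∀ γ : G, ∀ x ∈ K, shift γ x ∈ K} := by
  have h1 : {K : Compacts (G → ℕ → unitInterval) | ∀ γ : G, ∀ x ∈ K, shift γ x ∈ K} =
      ⋂ γ : G, {K | K.map (shift γ) (continuous_shift γ) = K} := by
    ext K
    simp only [mem_iInter, mem_ofPred_eq]
    constructor
    · intro h γ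
      refine SetLike.ext fun x => ?_
      rw [← SetLike.mem_coe, Compacts.coe_map]
      constructor
      · rintro ⟨y, hy, rfl⟩
        exact h γ y hy
      · intro hx
        refine ⟨shift γ⁻¹ x, h _ _ hx, ?_⟩
        rw [← shift_mul, mul_inv_cancel, shift_one]
    · intro h γ x hx
      rw [← h γ, ← SetLike.mem_coe, Compacts.coe_map]
      exact ⟨x, hx, rfl⟩
  rw [h1]
  refine isClosed_iInter fun γ => ?_
  exact isClosed_eq ((continuous_shift γ).compacts_map) continuous_id

instance : CompactSpace (Shf G) := isCompact_iff_compactSpace.1 (isClosed_shf (G := G)).isCompact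

instance : T2Space (Shf G) :=
  inferInstanceAs (T2Space {K : Compacts (G → ℕ → unitInterval) //
    ∀ γ : G, ∀ x ∈ K, shift γ x ∈ K})

instance : BaireSpace (Shf G) := inferInstance

/-! ### Uniform truncation -/

omit [Group G] in
theorem unif_agree {V : Set ((G → ℕ → unitInterval) × (G → ℕ → unitInterval))}
    (hV : V ∈ 𝓤 (G → ℕ → unitInterval)) :
    ∃ N : ℕ, ∀ x y : G → ℕ → unitInterval, (∀ δ, ∀ i < N, x δ i = y δ i) → (x, y) ∈ V := by
  have h1 : (⨅ N : ℕ, 𝓟 {p : (G → ℕ → unitInterval) × (G → ℕ → unitInterval) |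
      ∀ δ, ∀ i < N, p.1 δ i = p.2 δ i}) ≤ 𝓤 (G → ℕ → unitInterval) := by
    rw [Pi.uniformity]
    refine le_iInf fun δ => ?_
    rw [Pi.uniformity, comap_iInf]
    refine le_iInf fun i => ?_
    rw [comap_comap]
    refine iInf_le_of_le (i + 1) ?_
    intro W hW
    obtain ⟨W', hW', hsub⟩ := hW
    refine mem_principal.2 fun p hp => hsub ?_
    have h3 : p.1 δ i = p.2 δ i := hp δ i (Nat.lt_succ_self i)
    show (p.1 δ i, p.2 δ i) ∈ W'
    rw [h3]
    exact refl_mem_uniformity hW'
  have h2 := h1 hV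
  rw [mem_iInf_of_directed] at h2
  · obtain ⟨N, hN⟩ := h2
    exact ⟨N, fun x y hxy => hN hxy⟩
  · intro M N
    refine ⟨max M N, ?_, ?_⟩
    · refine principal_mono.2 fun p hp δ i hi => ?_
      exact hp δ i (lt_max_of_lt_left hi)
    · refine principal_mono.2 fun p hp δ i hi => ?_
      exact hp δ i (lt_max_of_lt_right hi)

/-! ### Colourings -/

theorem exists_avoid : ∀ a b : Fin 3, ∃ c : Fin 3, c ≠ a ∧ c ≠ b := by decide

open Classical in
/-- greedy colouring -/
noncomputable def col (e : G → ℕ) (γ : G) : G → Fin 3 :=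
  (measure e).wf.fix fun δ rec =>
    (exists_avoid (if h : e (δ * γ) < e δ then rec (δ * γ) h else 0)
      (if h : e (δ * γ⁻¹) < e δ then rec (δ * γ⁻¹) h else 0)).choose

open Classical in
theorem col_spec (e : G → ℕ) (γ : G) (δ : G) :
    (e (δ * γ) < e δ → col e γ δ ≠ col e γ (δ * γ)) ∧
    (e (δ * γ⁻¹) < e δ → col e γ δ ≠ col e γ (δ * γ⁻¹)) := by
  have h := (exists_avoid (if h : e (δ * γ) < e δ then col e γ (δ * γ) else 0)
      (if h : e (δ * γ⁻¹) < e δ then col e γ (δ * γ⁻¹) else 0)).choose_spec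
  have h2 : col e γ δ = (exists_avoid (if h : e (δ * γ) < e δ then col e γ (δ * γ) else 0)
      (if h : e (δ * γ⁻¹) < e δ then col e γ (δ * γ⁻¹) else 0)).choose := by
    conv_lhs => rw [col, WellFounded.fix_eq]
    rfl
  rw [← h2] at h
  constructor
  · intro h3
    simpa [h3] using h.1
  · intro h3
    simpa [h3] using h.2

theorem col_ne {e : G → ℕ} (he : Function.Injective e) {γ : G} (hγ : γ ≠ 1) (δ : G) :
    col e γ (δ * γ) ≠ col e γ δ := by
  rcases lt_trichotomy (e (δ * γ)) (e δ) with h | h | h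
  · exact ((col_spec e γ δ).1 h).symm
  · exact absurd (he h) (by simpa using hγ)
  · have h1 := (col_spec e γ (δ * γ)).2
    rw [mul_inv_cancel_right] at h1
    exact h1 h

/-- the colourings -/
def Zc (γ : G) : Set (G → Fin 3) := {z | ∀ δ, z (δ * γ) ≠ z δ}

theorem Zc_nonempty [Countable G] {γ : G} (hγ : γ ≠ 1) : (Zc γ).Nonempty := by
  obtain ⟨e, he⟩ := exists_injective_nat G
  exact ⟨col e γ, fun δ => col_ne he hγ δ⟩

theorem Zc_isCompact (γ : G) : IsCompact (Zc γ) := by
  refine IsClosed.isCompact ?_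
  have h : Zc γ = ⋂ δ : G, {z | z (δ * γ) ≠ z δ} := by
    ext z
    simp [Zc]
  rw [h]
  refine isClosed_iInter fun δ => ?_
  have h1 : Continuous fun z : G → Fin 3 => (z (δ * γ), z δ) := by fun_prop
  exact (isClosed_discrete {p : Fin 3 × Fin 3 | p.1 ≠ p.2}).preimage h1

theorem Zc_shift {γ : G} (g : G) {z : G → Fin 3} (hz : z ∈ Zc γ) : shift g z ∈ Zc γ := by
  intro δ
  show z (g⁻¹ * (δ * γ)) ≠ z (g⁻¹ * δ)
  rw [← mul_assoc]
  exact hz _

theorem Zc_fix {γ : G} {z : G → Fin 3} (hz : z ∈ Zc γ) : shift γ z ≠ z := by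
  intro h
  have h1 := congrFun h γ
  simp only [shift, inv_mul_cancel] at h1
  have h2 := hz 1
  rw [one_mul] at h2
  exact h2 h1.symm

/-! ### Perturbation -/

/-- coding of the colours in the interval -/
noncomputable def code (a : Fin 3) : unitInterval :=
  ⟨(a : ℝ) / 2, by positivity, by
    have : ((a : ℕ) : ℝ) ≤ 2 := by exact_mod_cast Nat.le_of_lt_succ a.2
    linarith⟩

theorem code_inj : Function.Injective code := by
  intro a b h
  have h1 : (a : ℝ) / 2 = (b : ℝ) / 2 := congrArg Subtype.val h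
  have h2 : ((a : ℕ) : ℝ) = ((b : ℕ) : ℝ) := by linarith
  exact Fin.ext (by exact_mod_cast h2)

open Classical in
/-- the perturbation -/
noncomputable def pert (N : ℕ) (p : (G → ℕ → unitInterval) × (G → Fin 3)) :
    G → ℕ → unitInterval :=
  fun δ i => if i < N then p.1 δ i else code (p.2 δ)

omit [Group G] in
theorem continuous_pert (N : ℕ) : Continuous (pert N : _ → G → ℕ → unitInterval) := by
  refine continuous_pi fun δ => continuous_pi fun i => ?_
  by_cases h : i < N
  · simp only [pert, h, if_true]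
    fun_prop
  · simp only [pert, h, if_false]
    have h1 : Continuous fun p : (G → ℕ → unitInterval) × (G → Fin 3) => p.2 δ := by fun_prop
    exact (continuous_of_discreteTopology (f := code)).comp h1

theorem pert_shift (N : ℕ) (γ : G) (y : G → ℕ → unitInterval) (z : G → Fin 3) :
    shift γ (pert N (y, z)) = pert N (shift γ y, shift γ z) := rfl

omit [Group G] in
theorem pert_inj {N : ℕ} {y y' : G → ℕ → unitInterval} {z z' : G → Fin 3}
    (h : pert N (y, z) = pert N (y', z')) : z = z' := by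
  funext δ
  have h1 := congrFun (congrFun h δ) N
  simp only [pert, lt_irrefl, if_false] at h1
  exact code_inj h1

/-- the perturbed subshift -/
noncomputable def pertShf (N : ℕ) (γ : G) (Y : Shf G) : Shf G :=
  ⟨⟨pert N '' ((Y.1 : Set (G → ℕ → unitInterval)) ×ˢ Zc γ),
    (Y.1.isCompact.prod (Zc_isCompact γ)).image (continuous_pert N)⟩, by
    rintro g _ ⟨⟨y, z⟩, ⟨hy, hz⟩, rfl⟩
    exact ⟨(shift g y, shift g z), ⟨Y.2 g y hy, Zc_shift g hz⟩, rfl⟩⟩

/-- the subshifts without fixed points of `γ` -/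
def NoFix (γ : G) : Set (Shf G) := {Y | ∀ x ∈ Y.1, shift γ x ≠ x}

theorem pertShf_mem (N : ℕ) (γ : G) (Y : Shf G) : pertShf N γ Y ∈ NoFix γ := by
  rintro _ ⟨⟨y, z⟩, ⟨_, hz⟩, rfl⟩ h
  rw [pert_shift] at h
  exact Zc_fix hz (pert_inj h)

theorem tendsto_pertShf [Countable G] {γ : G} (hγ : γ ≠ 1) (Y : Shf G) :
    Tendsto (fun N => pertShf N γ Y) atTop (𝓝 Y) := by
  refine tendsto_subtype_rng.2 ?_
  rw [Uniform.tendsto_nhds_right]
  rw [(𝓤 (G → ℕ → unitInterval)).basis_sets.uniformity_compacts.tendsto_right_iff]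
  intro V hV
  obtain ⟨N0, hN0⟩ := unif_agree hV
  obtain ⟨z0, hz0⟩ := Zc_nonempty hγ
  filter_upwards [eventually_ge_atTop N0] with N hN
  refine ⟨fun y hy => ?_, ?_⟩
  · refine ⟨pert N (y, z0), ⟨(y, z0), ⟨hy, hz0⟩, rfl⟩, ?_⟩
    refine hN0 _ _ fun δ i hi => ?_
    simp only [pert, hi.trans_le hN, if_true]
  · rintro _ ⟨⟨y, z⟩, ⟨hy, hz⟩, rfl⟩
    refine ⟨y, hy, ?_⟩
    refine hN0 _ _ fun δ i hi => ?_
    simp only [pert, hi.trans_le hN, if_true]

theorem isOpen_noFix (γ : G) : IsOpen (NoFix γ) := by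
  have h1 : IsOpen {x : G → ℕ → unitInterval | shift γ x ≠ x} :=
    isOpen_ne_fun (continuous_shift γ) continuous_id
  exact (Compacts.isOpen_subsets_of_isOpen h1).preimage continuous_subtype_val

theorem dense_noFix [Countable G] {γ : G} (hγ : γ ≠ 1) : Dense (NoFix γ) := by
  intro Y
  exact mem_closure_of_tendsto (tendsto_pertShf hγ Y)
    (Eventually.of_forall fun N => pertShf_mem N γ Y)

/-- the free subshifts -/
def FreeS (G : Type) [Group G] : Set (Shf G) :=
  {Y | ∀ γ : G, ∀ x ∈ Y.1, shift γ x = x → γ = 1}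

/-- Generic freeness. -/
theorem free_residual [Countable G] : FreeS G ∈ residual (Shf G) := by
  have h1 : ∀ γ : {γ : G // γ ≠ 1}, NoFix γ.1 ∈ residual (Shf G) := fun γ =>
    residual_of_dense_open (isOpen_noFix _) (dense_noFix γ.2)
  have h2 := countable_iInter_mem.2 h1
  filter_upwards [h2] with Y hY γ x hx hfix
  by_contra hne
  exact mem_iInter.1 hY ⟨γ, hne⟩ x hx hfix

end Pool.Agent.V8H43.GS
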